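import Pool.Agent.H20.QL.Defs

set_option autoImplicit false
open Finset

namespace Pool.Agent.H20.QL

namespace Clu

variable {V : Type} [DecidableEq V]

/-- walks of length `m` from `x` to `y` visiting `S` -/
def Wk (nb : V → Finset V) (m : ℕ) (x y : V) (S : Finset V) : Prop :=
  ∃ w : ℕ → V, w 0 = x ∧ w m = y ∧ (∀ i, i < m → w (i + 1) ∈ nb (w i)) ∧
    ∀ s ∈ S, ∃ i, i ≤ m ∧ w i = s

omit [DecidableEq V] in
theorem Wk.cov {nb : V → Finset V} {m : ℕ} {x y : V} {S : Finset V} (h : Wk nb m x y S) :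
    Cov nb m x S := by
  obtain ⟨w, h0, _, h1, h2⟩ := h
  exact ⟨w, h0, h1, h2⟩

theorem Wk.comp {nb : V → Finset V} {m n : ℕ} {x y z : V} {S T : Finset V}
    (h : Wk nb m x y S) (h' : Wk nb n y z T) : Wk nb (m + n) x z (S ∪ T) := by
  obtain ⟨w, h0, h1, h2, h3⟩ := h
  obtain ⟨w', h0', h1', h2', h3'⟩ := h'
  refine ⟨fun i => if i ≤ m then w i else w' (i - m), by simp [h0], ?_, ?_, ?_⟩
  · by_cases hn : n = 0
    · subst hn
      simp only [add_zero, le_refl, if_true]
      rw [h1, ← h1', h0']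
    · have : ¬ m + n ≤ m := by omega
      simp only [this, if_false]
      rw [← h1']
      congr 1
      omega
  · intro i hi
    by_cases h4 : i + 1 ≤ m
    · have h5 : i ≤ m := by omega
      simp only [h4, h5, if_true]
      exact h2 i (by omega)
    · by_cases h5 : i ≤ m
      · have h6 : i = m := by omega
        subst h6
        simp only [h4, le_refl, if_true, if_false]
        have := h2' 0 (by omega)
        rw [h1, ← h0']
        have h7 : i + 1 - i = 0 + 1 := by omega
        rw [h7]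
        exact this
      · simp only [h4, h5, if_false]
        have := h2' (i - m) (by omega)
        have h7 : i + 1 - m = i - m + 1 := by omega
        rw [h7]
        exact this
  · intro s hs
    rcases Finset.mem_union.1 hs with hs | hs
    · obtain ⟨i, hi, hw⟩ := h3 s hs
      exact ⟨i, by omega, by simp only [hi, if_true]; exact hw⟩
    · obtain ⟨i, hi, hw⟩ := h3' s hs
      refine ⟨m + i, by omega, ?_⟩
      by_cases hi0 : i = 0
      · subst hi0
        simp only [add_zero, le_refl, if_true]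
        rw [h1, ← h0', hw]
      · have : ¬ m + i ≤ m := by omega
        simp only [this, if_false]
        rw [← hw]
        congr 1
        omega

omit [DecidableEq V] in
theorem Wk.mono {nb : V → Finset V} {m : ℕ} {x y : V} {S T : Finset V}
    (h : Wk nb m x y S) (hST : T ⊆ S) : Wk nb m x y T := by
  obtain ⟨w, h0, h1, h2, h3⟩ := h
  exact ⟨w, h0, h1, h2, fun s hs => h3 s (hST hs)⟩

omit [DecidableEq V] in
theorem Wk.refl (nb : V → Finset V) (x : V) : Wk nb 0 x x {x} :=
  ⟨fun _ => x, rfl, rfl, fun i hi => absurd hi (by omega), fun s hs =>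
    ⟨0, le_refl _, (Finset.mem_singleton.1 hs).symm⟩⟩

omit [DecidableEq V] in
theorem Wk.one {nb : V → Finset V} {x y : V} (h : y ∈ nb x) : Wk nb 1 x y {y} := by
  refine ⟨fun i => if i = 0 then x else y, by simp, by simp, ?_, ?_⟩
  · intro i hi
    have : i = 0 := by omega
    subst this
    simpa using h
  · intro s hs
    exact ⟨1, le_refl _, by simp [(Finset.mem_singleton.1 hs)]⟩

theorem Wk.pad {nb : V → Finset V} (hr : ∀ x, x ∈ nb x) {m : ℕ} {x y : V} {S : Finset V}
    (h : Wk nb m x y S) (n : ℕ) : Wk nb (m + n) x y S := by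
  induction n with
  | zero => exact h
  | succ n ih => exact (ih.comp (Wk.one (hr y))).mono Finset.subset_union_left

theorem Wk.pad' {nb : V → Finset V} (hr : ∀ x, x ∈ nb x) {m : ℕ} {x y : V} {S : Finset V}
    (h : Wk nb m x y S) {n : ℕ} (hmn : m ≤ n) : Wk nb n x y S := by
  obtain ⟨k, rfl⟩ := Nat.exists_eq_add_of_le hmn
  exact h.pad hr k

theorem Wk.of_nball {nb : V → Finset V} {n : ℕ} {x y : V} (h : y ∈ nball nb n x) :
    Wk nb n x y {y} := by
  induction n generalizing y with
  | zero =>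
    have : y = x := by simpa [nball] using h
    subst this
    exact Wk.refl nb y
  | succ n ih =>
    rw [nball, Finset.mem_biUnion] at h
    obtain ⟨z, hz, hy⟩ := h
    exact ((ih hz).comp (Wk.one hy)).mono Finset.subset_union_right

theorem Wk.nball {nb : V → Finset V} {n : ℕ} {x y : V} {S : Finset V} (h : Wk nb n x y S) :
    y ∈ nball nb n x := by
  obtain ⟨w, h0, h1, h2, _⟩ := h
  have : ∀ i, i ≤ n → w i ∈ Pool.Agent.H20.QL.nball nb i x := by
    intro i
    induction i with
    | zero =>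
      intro _
      simp [Pool.Agent.H20.QL.nball, h0]
    | succ i ih =>
      intro hi
      rw [Pool.Agent.H20.QL.nball, Finset.mem_biUnion]
      exact ⟨w i, ih (by omega), h2 i (by omega)⟩
  rw [← h1]
  exact this n (le_refl n)

open Classical in
theorem Wk.split {nb : V → Finset V} {m : ℕ} {x y v : V} {S : Finset V} (h : Wk nb m x y S)
    (hv : v ∈ S) : ∃ m1 m2 S1 S2, m1 + m2 = m ∧ Wk nb m1 x v S1 ∧ Wk nb m2 v y S2 ∧
      S ⊆ S1 ∪ S2 := by
  obtain ⟨w, h0, h1, h2, h3⟩ := h
  obtain ⟨k, hk, hw⟩ := h3 v hv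
  refine ⟨k, m - k, S.filter (fun s => ∃ i, i ≤ k ∧ w i = s),
    S.filter (fun s => ∃ i, k ≤ i ∧ i ≤ m ∧ w i = s), by omega, ?_, ?_, ?_⟩
  · exact ⟨w, h0, hw, fun i hi => h2 i (by omega), fun s hs => (Finset.mem_filter.1 hs).2⟩
  · refine ⟨fun i => w (k + i), by simpa using hw, ?_, ?_, ?_⟩
    · show w (k + (m - k)) = y
      rw [← h1]
      congr 1
      omega
    · intro i hi
      exact h2 (k + i) (by omega)
    · intro s hs
      obtain ⟨i, hi1, hi2, hi3⟩ := (Finset.mem_filter.1 hs).2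
      refine ⟨i - k, by omega, ?_⟩
      show w (k + (i - k)) = s
      rw [← hi3]
      congr 1
      omega
  · intro s hs
    obtain ⟨i, hi, hws⟩ := h3 s hs
    rw [Finset.mem_union, Finset.mem_filter, Finset.mem_filter]
    by_cases hik : i ≤ k
    · exact Or.inl ⟨hs, i, hik, hws⟩
    · exact Or.inr ⟨hs, i, by omega, hi, hws⟩

theorem Wk.detour {nb : V → Finset V} (hN : NballStmt) (hsym : ∀ x y, y ∈ nb x → x ∈ nb y)
    {m r : ℕ} {x y v w : V} {S : Finset V}
    (h : Wk nb m x y S) (hv : v ∈ S) (hw : w ∈ QL.nball nb r v) :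
    Wk nb (m + 2 * r) x y (insert w S) := by
  obtain ⟨m1, m2, S1, S2, hm, h1, h2, hS⟩ := h.split hv
  have h3 := Wk.of_nball hw
  have h4 := Wk.of_nball ((hN V nb).1 hsym r v w hw)
  have h5 := ((h1.comp h3).comp h4).comp h2
  have h6 : m1 + r + r + m2 = m + 2 * r := by omega
  rw [h6] at h5
  refine h5.mono ?_
  intro s hs
  rcases Finset.mem_insert.1 hs with rfl | hs
  · simp
  · rcases Finset.mem_union.1 (hS hs) with h | h
    · simp [h]
    · simp [h]

/-- every point of a closed walk of length `2 m` is within distance `m` of the base point -/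
theorem Wk.close {nb : V → Finset V} (hN : NballStmt) (hr : ∀ x, x ∈ nb x)
    (hsym : ∀ x y, y ∈ nb x → x ∈ nb y)
    {m : ℕ} {x v : V} {S : Finset V} (h : Wk nb (2 * m) x x S) (hv : v ∈ S) :
    v ∈ QL.nball nb m x := by
  obtain ⟨m1, m2, S1, S2, hm, h1, h2, hS⟩ := h.split hv
  by_cases hle : m1 ≤ m
  · exact (hN V nb).2.2.2 hr m1 m x hle h1.nball
  · have h3 := (hN V nb).1 hsym m2 v x h2.nball
    exact (hN V nb).2.2.2 hr m2 m x (by omega) h3

/-! ### components -/

/-- the edge relation -/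
def E (F : Finset V) (r : V → V → Prop) (a b : V) : Prop := a ∈ F ∧ b ∈ F ∧ r a b

open Classical in
/-- components -/
noncomputable def cl (F : Finset V) (r : V → V → Prop) (x : V) : Finset V :=
  F.filter (fun y => Relation.ReflTransGen (E F r) x y)

omit [DecidableEq V] in
theorem mem_cl {F : Finset V} {r : V → V → Prop} {x y : V} :
    y ∈ cl F r x ↔ y ∈ F ∧ Relation.ReflTransGen (E F r) x y := by
  classical
  exact Finset.mem_filter

omit [DecidableEq V] in
theorem rtg_symm {F : Finset V} {r : V → V → Prop} (hr : ∀ a b, r a b → r b a) {x y : V}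
    (h : Relation.ReflTransGen (E F r) x y) : Relation.ReflTransGen (E F r) y x := by
  induction h with
  | refl => exact Relation.ReflTransGen.refl
  | tail _ h2 ih =>
    exact Relation.ReflTransGen.head ⟨h2.2.1, h2.1, hr _ _ h2.2.2⟩ ih

omit [DecidableEq V] in
theorem cl_eq {F : Finset V} {r : V → V → Prop} (hr : ∀ a b, r a b → r b a) {x y : V}
    (h : y ∈ cl F r x) : cl F r y = cl F r x := by
  rw [mem_cl] at h
  ext z
  rw [mem_cl, mem_cl]
  constructor
  · rintro ⟨h1, h2⟩
    exact ⟨h1, h.2.trans h2⟩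
  · rintro ⟨h1, h2⟩
    exact ⟨h1, (rtg_symm hr h.2).trans h2⟩

omit [DecidableEq V] in
theorem exit {F : Finset V} {r : V → V → Prop} {a b : V} (P : V → Prop)
    (h : Relation.ReflTransGen (E F r) a b) (ha : P a) (hb : ¬ P b) :
    ∃ c d, P c ∧ ¬ P d ∧ Relation.ReflTransGen (E F r) a c ∧ E F r c d := by
  induction h with
  | refl => exact absurd ha hb
  | @tail c d h1 h2 ih =>
    by_cases hc : P c
    · exact ⟨c, d, hc, hb, h1, h2⟩
    · exact ih hc

/-- growing a closed walk in a component -/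
theorem grow {nb : V → Finset V} (hN : NballStmt) (hsym : ∀ x y, y ∈ nb x → x ∈ nb y)
    (F : Finset V) (r : ℕ) {x v : V} (n : ℕ) : ∀ (m : ℕ) (S : Finset V),
    v ∈ S → Wk nb m x x S → (cl F (fun a b => b ∈ QL.nball nb r a) v \ S).card = n →
    Wk nb (m + 2 * r * n) x x (S ∪ cl F (fun a b => b ∈ QL.nball nb r a) v) := by
  induction n with
  | zero =>
    intro m S hvS hS hc
    rw [Finset.card_eq_zero, Finset.sdiff_eq_empty_iff_subset] at hc
    rw [Finset.union_eq_left.2 hc]
    simpa using hS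
  | succ n ih =>
    intro m S hvS hS hc
    have hne : (cl F (fun a b => b ∈ QL.nball nb r a) v \ S).Nonempty := by
      rw [← Finset.card_pos, hc]
      omega
    obtain ⟨z, hz⟩ := hne
    rw [Finset.mem_sdiff] at hz
    obtain ⟨c, d, hcS, hdS, h1, h2⟩ := exit (fun y => y ∈ S) (mem_cl.1 hz.1).2 hvS hz.2
    have hd : d ∈ cl F (fun a b => b ∈ QL.nball nb r a) v :=
      mem_cl.2 ⟨h2.2.1, h1.tail h2⟩
    have h3 := hS.detour hN hsym hcS h2.2.2
    have h4 := ih (m + 2 * r) (insert d S) (Finset.mem_insert_of_mem hvS) h3 (by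
      have : cl F (fun a b => b ∈ QL.nball nb r a) v \ insert d S =
          (cl F (fun a b => b ∈ QL.nball nb r a) v \ S).erase d := by
        ext y
        simp only [Finset.mem_sdiff, Finset.mem_insert, Finset.mem_erase]
        tauto
      rw [this, Finset.card_erase_of_mem (Finset.mem_sdiff.2 ⟨hd, hdS⟩), hc]
      omega)
    have h5 : m + 2 * r + 2 * r * n = m + 2 * r * (n + 1) := by ring
    rw [h5] at h4
    refine h4.mono ?_
    intro y hy
    rcases Finset.mem_union.1 hy with h | h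
    · simp [h]
    · simp [h]

omit [DecidableEq V] in
theorem self_mem_cl {F : Finset V} {r : V → V → Prop} {x : V} (hx : x ∈ F) : x ∈ cl F r x :=
  mem_cl.2 ⟨hx, Relation.ReflTransGen.refl⟩

omit [DecidableEq V] in
theorem cl_subset (F : Finset V) (r : V → V → Prop) (x : V) : cl F r x ⊆ F :=
  fun _ h => (mem_cl.1 h).1

/-- separated components -/
theorem disj {nb : V → Finset V} (hN : NballStmt) (hsym : ∀ x y, y ∈ nb x → x ∈ nb y)
    (F : Finset V) (r : ℕ) {x y : V} (hne : cl F (fun a b => b ∈ QL.nball nb (2 * r) a) x ≠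
      cl F (fun a b => b ∈ QL.nball nb (2 * r) a) y) :
    Disjoint (nset nb r (cl F (fun a b => b ∈ QL.nball nb (2 * r) a) x))
      (nset nb r (cl F (fun a b => b ∈ QL.nball nb (2 * r) a) y)) := by
  have hsymr : ∀ a b : V, b ∈ QL.nball nb (2 * r) a → a ∈ QL.nball nb (2 * r) b :=
    fun a b h => (hN V nb).1 hsym _ _ _ h
  rw [Finset.disjoint_left]
  intro p hp hq
  unfold nset at hp hq
  rw [Finset.mem_biUnion] at hp hq
  obtain ⟨z, hz, hpz⟩ := hp
  obtain ⟨z', hz', hpz'⟩ := hq
  refine hne ?_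
  have h1 : z' ∈ QL.nball nb (r + r) z :=
    (hN V nb).2.2.1 r r z p z' hpz ((hN V nb).1 hsym _ _ _ hpz')
  rw [← two_mul] at h1
  have h2 : z' ∈ cl F (fun a b => b ∈ QL.nball nb (2 * r) a) z :=
    mem_cl.2 ⟨cl_subset _ _ _ hz',
      Relation.ReflTransGen.single ⟨cl_subset _ _ _ hz, cl_subset _ _ _ hz', h1⟩⟩
  rw [← cl_eq hsymr hz, ← cl_eq hsymr h2, cl_eq hsymr hz']

/-- growing a union of clusters -/
theorem grow2 {nb : V → Finset V} (hN : NballStmt) (hr : ∀ x, x ∈ nb x)
    (hsym : ∀ x y, y ∈ nb x → x ∈ nb y)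
    (F W : Finset V) (ρ j : ℕ) {x : V}
    (hbig : ∀ y ∈ W, y ∈ F ∧ j ≤ (cl F (fun a b => b ∈ QL.nball nb (2 * ρ) a) y).card ∧
      cl F (fun a b => b ∈ QL.nball nb (2 * ρ) a) y ⊆ W)
    (hconn : ∀ U ⊆ W, x ∈ U → U ≠ W → ∃ c d, c ∈ U ∧ d ∈ W ∧ d ∉ U ∧
      d ∈ QL.nball nb (2 * j) c) (n : ℕ) :
    ∀ U ⊆ W, x ∈ U → (∀ u ∈ U, cl F (fun a b => b ∈ QL.nball nb (2 * ρ) a) u ⊆ U) →
      (W \ U).card ≤ n → Wk nb ((4 * ρ + 4) * U.card) x x U →
      Wk nb ((4 * ρ + 4) * W.card) x x W := by
  have hsymr : ∀ a b : V, b ∈ QL.nball nb (2 * ρ) a → a ∈ QL.nball nb (2 * ρ) b :=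
    fun a b h => (hN V nb).1 hsym _ _ _ h
  induction n with
  | zero =>
    intro U hU hx hcl hc hwk
    rw [Nat.le_zero, Finset.card_eq_zero, Finset.sdiff_eq_empty_iff_subset] at hc
    rw [Finset.Subset.antisymm hc hU]
    exact hwk
  | succ n ih =>
    intro U hU hx hcl hc hwk
    by_cases hUW : U = W
    · rw [← hUW]
      exact hwk
    obtain ⟨c, d, hcU, hdW, hdU, hcd⟩ := hconn U hU hx hUW
    set K := cl F (fun a b => b ∈ QL.nball nb (2 * ρ) a) d with hK
    have hdF := (hbig d hdW).1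
    have hdK : d ∈ K := self_mem_cl hdF
    have hdisj : Disjoint U K := by
      rw [Finset.disjoint_left]
      intro u hu huK
      have h1 : cl F (fun a b => b ∈ QL.nball nb (2 * ρ) a) u = K := cl_eq hsymr huK
      exact hdU (hcl u hu (h1 ▸ hdK))
    have h1 := hwk.detour hN hsym hcU hcd
    have h2 := grow hN hsym F (2 * ρ) (v := d) (K \ insert d U).card _ (insert d U)
      (Finset.mem_insert_self _ _) h1 rfl
    have h3 : K \ insert d U = K.erase d := by
      ext y
      rw [Finset.mem_sdiff, Finset.mem_insert, Finset.mem_erase]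
      constructor
      · rintro ⟨ha, hb⟩
        exact ⟨fun h => hb (Or.inl h), ha⟩
      · rintro ⟨ha, hb⟩
        exact ⟨hb, fun h => h.elim ha (fun h => Finset.disjoint_left.1 hdisj h hb)⟩
    rw [h3, Finset.card_erase_of_mem hdK] at h2
    have h4 : insert d U ∪ K = U ∪ K := by
      ext y
      simp only [Finset.mem_union, Finset.mem_insert]
      constructor
      · rintro ((rfl | h) | h)
        · exact Or.inr hdK
        · exact Or.inl h
        · exact Or.inr h
      · rintro (h | h)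
        · exact Or.inl (Or.inr h)
        · exact Or.inr h
    rw [← hK, h4] at h2
    have hKpos : 1 ≤ K.card := Finset.card_pos.2 ⟨d, hdK⟩
    have hKj : j ≤ K.card := (hbig d hdW).2.1
    have hKW : K ⊆ W := (hbig d hdW).2.2
    refine ih (U ∪ K) (Finset.union_subset hU hKW) (Finset.mem_union_left _ hx) ?_ ?_ ?_
    · intro u hu
      rcases Finset.mem_union.1 hu with hu | hu
      · exact (hcl u hu).trans Finset.subset_union_left
      · rw [cl_eq hsymr hu]
        exact Finset.subset_union_right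
    · have h5 : (W \ (U ∪ K)).card < (W \ U).card := by
        refine Finset.card_lt_card ?_
        rw [Finset.ssubset_iff_of_subset (Finset.sdiff_subset_sdiff (Finset.Subset.refl _)
          Finset.subset_union_left)]
        exact ⟨d, Finset.mem_sdiff.2 ⟨hdW, hdU⟩, fun h =>
          (Finset.mem_sdiff.1 h).2 (Finset.mem_union_right _ hdK)⟩
      omega
    · refine h2.pad' hr ?_
      rw [Finset.card_union_of_disjoint hdisj]
      obtain ⟨q, hq⟩ := Nat.exists_eq_add_of_le hKpos
      rw [hq] at hKj ⊢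
      have : 1 + q - 1 = q := by omega
      rw [this]
      nlinarith

end Clu

open Clu in
/-- MODULE F -/
theorem clusters (hN : NballStmt) : ClustersStmt := by
  intro V _ _ nb hr hsym ρ j hj F
  classical
  set r1 : V → V → Prop := fun a b => b ∈ nball nb (2 * ρ) a with hr1
  set r2 : V → V → Prop := fun a b => b ∈ nball nb (2 * j) a with hr2
  have hs1 : ∀ a b : V, r1 a b → r1 b a := fun a b h => (hN V nb).1 hsym _ _ _ h
  have hs2 : ∀ a b : V, r2 a b → r2 b a := fun a b h => (hN V nb).1 hsym _ _ _ h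
  set Big := F.filter (fun x => j ≤ (cl F r1 x).card) with hBig
  refine ⟨(F.filter (fun x => (cl F r1 x).card < j)).image (cl F r1), Big.image (cl Big r2),
    ?_, ?_, ?_, ?_, ?_⟩
  · intro x hx
    rw [Finset.mem_union]
    by_cases h : (cl F r1 x).card < j
    · left
      rw [Finset.mem_biUnion]
      exact ⟨cl F r1 x, Finset.mem_image_of_mem _ (Finset.mem_filter.2 ⟨hx, h⟩), self_mem_cl hx⟩
    · right
      rw [Finset.mem_biUnion]
      have hxB : x ∈ Big := Finset.mem_filter.2 ⟨hx, not_lt.1 h⟩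
      exact ⟨cl Big r2 x, Finset.mem_image_of_mem _ hxB, self_mem_cl hxB⟩
  · intro Z hZ
    rw [Finset.mem_image] at hZ
    obtain ⟨x, hx, rfl⟩ := hZ
    rw [Finset.mem_filter] at hx
    refine ⟨cl_subset _ _ _, x, ?_⟩
    have h1 := grow hN hsym F (2 * ρ) (x := x) (v := x) _ 0 {x} (Finset.mem_singleton_self x)
      (Wk.refl nb x) rfl
    intro y hy
    have h2 : (cl F r1 x \ {x}).card ≤ j := by
      have := Finset.card_le_card (Finset.sdiff_subset : cl F r1 x \ {x} ⊆ cl F r1 x)
      omega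
    have h3 : 0 + 2 * (2 * ρ) * (cl F r1 x \ {x}).card ≤ 2 * (2 * ρ * j) := by
      nlinarith [Nat.mul_le_mul_left (4 * ρ) h2]
    have h4 := h1.pad' hr h3
    exact h4.close hN hr hsym (Finset.mem_union_right _ hy)
  · intro Z hZ Z' hZ' hne
    rw [Finset.mem_image] at hZ hZ'
    obtain ⟨x, hx, rfl⟩ := hZ
    obtain ⟨y, hy, rfl⟩ := hZ'
    exact disj hN hsym F ρ hne
  · intro W hW
    rw [Finset.mem_image] at hW
    obtain ⟨x0, hx0, rfl⟩ := hW
    refine ⟨(cl_subset _ _ _).trans (Finset.filter_subset _ _), ?_⟩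
    intro x hx
    rw [← cl_eq hs2 hx]
    have hxB : x ∈ Big := cl_subset _ _ _ hx
    clear hx hx0 x0
    refine Wk.cov (y := x) ?_
    by_cases hρj : ρ ≤ j
    · have hsub : ∀ y ∈ cl Big r2 x, y ∈ F ∧ j ≤ (cl F r1 y).card ∧ cl F r1 y ⊆ cl Big r2 x := by
        intro y hy
        have hyB : y ∈ Big := cl_subset _ _ _ hy
        refine ⟨(Finset.mem_filter.1 hyB).1, (Finset.mem_filter.1 hyB).2, ?_⟩
        intro z hz
        rw [← cl_eq hs2 hy]
        have h1 : ∀ z, Relation.ReflTransGen (E F r1) y z → z ∈ cl Big r2 y := by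
          intro z hz
          induction hz with
          | refl => exact self_mem_cl hyB
          | @tail b c hb hbc ih =>
            have hcK : c ∈ cl F r1 y := mem_cl.2 ⟨hbc.2.1, hb.tail hbc⟩
            have hcB : c ∈ Big := by
              rw [hBig, Finset.mem_filter]
              refine ⟨hbc.2.1, ?_⟩
              rw [cl_eq hs1 hcK]
              exact (Finset.mem_filter.1 hyB).2
            refine mem_cl.2 ⟨hcB, (mem_cl.1 ih).2.tail ⟨(mem_cl.1 ih).1, hcB, ?_⟩⟩
            exact (hN V nb).2.2.2 hr (2 * ρ) (2 * j) b (by omega) hbc.2.2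
        exact h1 z (mem_cl.1 hz).2
      have hconn : ∀ U ⊆ cl Big r2 x, x ∈ U → U ≠ cl Big r2 x →
          ∃ c d, c ∈ U ∧ d ∈ cl Big r2 x ∧ d ∉ U ∧ d ∈ nball nb (2 * j) c := by
        intro U hU hxU hne
        obtain ⟨z, hz, hzU⟩ : ∃ z ∈ cl Big r2 x, z ∉ U := by
          by_contra hcon
          push Not at hcon
          exact hne (Finset.Subset.antisymm hU hcon)
        obtain ⟨c, d, h1, h2, h3, h4⟩ := exit (fun y => y ∈ U) (mem_cl.1 hz).2 hxU hzU
        exact ⟨c, d, h1, mem_cl.2 ⟨h4.2.1, h3.tail h4⟩, h2, h4.2.2⟩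
      have hxW : x ∈ cl Big r2 x := self_mem_cl hxB
      have hxF := (hsub x hxW).1
      have h1 := grow hN hsym F (2 * ρ) (x := x) (v := x) _ 0 {x} (Finset.mem_singleton_self x)
        (Wk.refl nb x) rfl
      refine grow2 hN hr hsym F (cl Big r2 x) ρ j hsub hconn _ (cl F r1 x) (hsub x hxW).2.2
        (self_mem_cl hxF) (fun u hu => by rw [cl_eq hs1 hu]) le_rfl ?_
      refine (h1.mono Finset.subset_union_right).pad' hr ?_
      have h2 := Finset.card_le_card (Finset.sdiff_subset : cl F r1 x \ {x} ⊆ cl F r1 x)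
      calc 0 + 2 * (2 * ρ) * (cl F r1 x \ {x}).card
          = (4 * ρ) * (cl F r1 x \ {x}).card := by ring
        _ ≤ (4 * ρ) * (cl F r1 x).card := Nat.mul_le_mul_left _ h2
        _ ≤ (4 * ρ + 4) * (cl F r1 x).card := Nat.mul_le_mul_right _ (by omega)
    · have h1 := grow hN hsym Big (2 * j) (x := x) (v := x) _ 0 {x}
        (Finset.mem_singleton_self x) (Wk.refl nb x) rfl
      refine (h1.mono Finset.subset_union_right).pad' hr ?_
      have h2 := Finset.card_le_card (Finset.sdiff_subset : cl Big r2 x \ {x} ⊆ cl Big r2 x)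
      calc 0 + 2 * (2 * j) * (cl Big r2 x \ {x}).card
          = (4 * j) * (cl Big r2 x \ {x}).card := by ring
        _ ≤ (4 * j) * (cl Big r2 x).card := Nat.mul_le_mul_left _ h2
        _ ≤ (4 * ρ + 4) * (cl Big r2 x).card := Nat.mul_le_mul_right _ (by omega)
  · intro W hW W' hW' hne
    rw [Finset.mem_image] at hW hW'
    obtain ⟨x, hx, rfl⟩ := hW
    obtain ⟨y, hy, rfl⟩ := hW'
    exact disj hN hsym Big j hne

end Pool.Agent.H20.QL
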